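import Pool.Agent.Helper15.AF.Goals2
import Pool.Agent.Helper78.DT.Av

/-!
# Project AF: THR, thresholds
-/

namespace Pool.Agent.Helper82.AF

open Pool.Agent.Helper81.CC Pool.Agent.Helper51.ZP Pool.Agent.Helper78.DT Pool.Agent.Helper78.JT
open Pool.Agent.Helper15.AF
open scoped Classical

theorem count_thr {J : ℕ} (hJ : 0 < J) {x : ℝ} (h0 : 0 ≤ x) (h1 : x ≤ 1) :
    ∑ j ∈ Finset.Icc 1 J, (if (j : ℝ) / J ≤ x then (1 : ℝ) else 0) = (⌊(J : ℝ) * x⌋₊ : ℝ) := by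
  have hJ' : (0 : ℝ) < J := Nat.cast_pos.2 hJ
  have hx : 0 ≤ (J : ℝ) * x := mul_nonneg hJ'.le h0
  rw [Finset.sum_boole]
  have h : (Finset.Icc 1 J).filter (fun j : ℕ => (j : ℝ) / J ≤ x) =
      Finset.Icc 1 ⌊(J : ℝ) * x⌋₊ := by
    ext j
    rw [Finset.mem_filter, Finset.mem_Icc, Finset.mem_Icc, div_le_iff₀ hJ', mul_comm x,
      Nat.le_floor_iff hx]
    constructor
    · rintro ⟨⟨h2, -⟩, h3⟩
      exact ⟨h2, h3⟩
    · rintro ⟨h2, h3⟩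
      refine ⟨⟨h2, ?_⟩, h3⟩
      have h4 : (j : ℝ) ≤ J := h3.trans (by nlinarith)
      exact_mod_cast h4
  rw [h, Nat.card_Icc, Nat.add_sub_cancel]

theorem av_thr {Ω : Type} [Fintype Ω] (θ : Ω → ℝ) {J : ℕ} (hJ : 0 < J)
    (h : ∀ ω, 0 ≤ θ ω ∧ θ ω ≤ 1) :
    av θ - 1 / J ≤ (∑ j ∈ Finset.Icc 1 J, pr (fun ω => (j : ℝ) / J ≤ θ ω)) / J ∧
      (∑ j ∈ Finset.Icc 1 J, pr (fun ω => (j : ℝ) / J ≤ θ ω)) / J ≤ av θ := by
  have hJ' : (0 : ℝ) < J := Nat.cast_pos.2 hJ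
  have e : (∑ j ∈ Finset.Icc 1 J, pr (fun ω => (j : ℝ) / J ≤ θ ω)) =
      av fun ω => ((⌊(J : ℝ) * θ ω⌋₊ : ℕ) : ℝ) := by
    simp only [pr_eq_av]
    rw [← av_sum]
    exact av_congr fun ω => count_thr hJ (h ω).1 (h ω).2
  rw [e]
  constructor
  · rw [sub_le_iff_le_add, ← add_div, le_div_iff₀ hJ']
    have h1 : av θ * J = av fun ω => θ ω * J := (av_mul_right θ _).symm
    have h2 : (av fun ω => θ ω * (J : ℝ)) ≤
        (av fun ω => ((⌊(J : ℝ) * θ ω⌋₊ : ℕ) : ℝ)) + av fun _ : Ω => (1 : ℝ) := by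
      rw [← av_add]
      refine av_mono fun ω => ?_
      have := (Nat.lt_floor_add_one ((J : ℝ) * θ ω)).le
      rw [mul_comm]
      exact this
    have h3 : (av fun _ : Ω => (1 : ℝ)) ≤ 1 := av_le_of_le zero_le_one fun _ => le_refl _
    rw [h1]
    linarith
  · rw [div_le_iff₀ hJ', ← av_mul_right]
    refine av_mono fun ω => ?_
    rw [mul_comm (θ ω)]
    exact Nat.floor_le (mul_nonneg hJ'.le (h ω).1)

/-- THR -/
theorem thr : ThrStmt := by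
  intro Ω Ω' _ _ θ θ' J δ hJ hθ hθ' h
  have hJ' : (0 : ℝ) < J := Nat.cast_pos.2 hJ
  obtain ⟨a1, a2⟩ := av_thr θ hJ hθ
  obtain ⟨b1, b2⟩ := av_thr θ' hJ hθ'
  have hc : |(∑ j ∈ Finset.Icc 1 J, pr (fun ω => (j : ℝ) / J ≤ θ ω)) / J -
      (∑ j ∈ Finset.Icc 1 J, pr (fun ω => (j : ℝ) / J ≤ θ' ω)) / J| ≤ δ := by
    rw [← sub_div, ← Finset.sum_sub_distrib, abs_div, abs_of_pos hJ', div_le_iff₀ hJ']
    refine (Finset.abs_sum_le_sum_abs _ _).trans ((Finset.sum_le_sum h).trans ?_)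
    rw [Finset.sum_const, Nat.card_Icc, Nat.add_sub_cancel, nsmul_eq_mul, mul_comm]
  rw [abs_le] at hc ⊢
  constructor <;> linarith [hc.1, hc.2]

end Pool.Agent.Helper82.AF
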