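import Mathlib
import Pool.Agent.Helper26.AF.Goals

/-!
Project AF, packet BRC: a bridge has one face on both sides.
-/

namespace Pool.Agent.Helper82.AF

open Pool.Agent.Helper26.AF

theorem goalBRC : Pool.Agent.Helper26.AF.StmtBRC := by
  intro V _ _ G σ hσ d hd
  classical
  set H := G.deleteEdges {d.edge} with hH
  set φ : Equiv.Perm G.Dart := σ * rev G with hφ
  have hfst : ∀ x : G.Dart, (φ x).fst = x.snd := by
    intro x
    show (σ x.symm).fst = x.snd
    rw [hσ]
    rfl
  have hadj : ∀ x : G.Dart, x ≠ d → x ≠ d.symm → H.Adj x.fst x.snd := by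
    intro x h1 h2
    rw [hH, SimpleGraph.deleteEdges_adj]
    refine ⟨x.adj, fun h => ?_⟩
    have h3 : x.edge = d.edge := h
    rcases (SimpleGraph.dart_edge_eq_iff x d).1 h3 with h4 | h4
    · exact h1 h4
    · exact h2 h4
  by_contra hcon
  have hstep : ∀ x : G.Dart, φ.SameCycle d x → ¬ H.Reachable d.fst x.fst →
      φ.SameCycle d (φ x) ∧ ¬ H.Reachable d.fst (φ x).fst := by
    intro x hx hx2
    refine ⟨(Equiv.Perm.sameCycle_apply_right).2 hx, fun h => ?_⟩
    rw [hfst] at h
    have h1 : x ≠ d := by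
      rintro rfl
      exact hx2 (SimpleGraph.Reachable.refl _)
    have h2 : x ≠ d.symm := by
      rintro rfl
      exact hcon hx
    exact hx2 (h.trans (hadj x h1 h2).symm.reachable)
  have hpow : ∀ k : ℕ, φ.SameCycle d ((φ ^ k) (φ d)) ∧ ¬ H.Reachable d.fst ((φ ^ k) (φ d)).fst := by
    intro k
    induction k with
    | zero =>
      refine ⟨?_, ?_⟩
      · rw [pow_zero, Equiv.Perm.one_apply, Equiv.Perm.sameCycle_apply_right]
      · rw [pow_zero, Equiv.Perm.one_apply, hfst]
        exact hd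
    | succ k ih =>
      rw [pow_succ', Equiv.Perm.mul_apply]
      exact hstep _ ih.1 ih.2
  have h1 := (hpow (orderOf φ - 1)).2
  have h2 : (φ ^ (orderOf φ - 1)) (φ d) = d := by
    rw [← Equiv.Perm.mul_apply, ← pow_succ, Nat.sub_add_cancel (orderOf_pos φ), pow_orderOf_eq_one,
      Equiv.Perm.one_apply]
  rw [h2] at h1
  exact h1 (SimpleGraph.Reachable.refl _)

end Pool.Agent.Helper82.AF
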